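import Mathlib

open Equiv Finset Filter Topology
open scoped Pointwise

namespace KS6_22_CT

noncomputable instance decPermInt : DecidableEq (Perm ℤ) := Classical.decEq _

/-- `τ` is the class transposition that interchanges `i + kℤ` and `j + kℤ` by translation. -/
def IsCT (k i j : ℤ) (τ : Perm ℤ) : Prop :=
  ∀ n : ℤ, τ n = if n % k = i then n + (j - i) else if n % k = j then n - (j - i) else n

/-- The set of all horizontal class transpositions. -/
def H : Set (Perm ℤ) := {τ | ∃ k i j : ℤ, 2 ≤ k ∧ 0 ≤ i ∧ i < j ∧ j < k ∧ IsCT k i j τ}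

/-- The group generated by the horizontal class transpositions with modulus `N`. -/
def CT (N : ℕ) : Subgroup (Perm ℤ) :=
  Subgroup.closure {τ | ∃ i j : ℤ, 0 ≤ i ∧ i < j ∧ j < N ∧ IsCT N i j τ}

/-- `g` is a product of at most `n` horizontal class transpositions. -/
def IsProd (n : ℕ) (g : Perm ℤ) : Prop :=
  ∃ l : List (Perm ℤ), l.length ≤ n ∧ (∀ τ ∈ l, τ ∈ H) ∧ l.prod = g

open Classical in
/-- number of elements of `A` in `[-L, L]` -/
noncomputable def cnt (A : Set ℤ) (L : ℕ) : ℕ := ((Icc (-(L : ℤ)) L).filter (· ∈ A)).card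

/-- upper density at most `δ`, with bounded error -/
def Sparse (δ : ℝ) (A : Set ℤ) : Prop := ∃ C : ℝ, ∀ L : ℕ, (cnt A L : ℝ) ≤ δ * (2 * L + 1) + C

lemma cnt_mono {A B : Set ℤ} (h : A ⊆ B) (L : ℕ) : cnt A L ≤ cnt B L := by
  classical
  unfold cnt
  apply card_le_card
  intro x hx
  simp only [mem_filter] at hx ⊢
  exact ⟨hx.1, h hx.2⟩

lemma cnt_union (A B : Set ℤ) (L : ℕ) : cnt (A ∪ B) L ≤ cnt A L + cnt B L := by
  classical
  unfold cnt
  refine le_trans (card_le_card ?_) (card_union_le _ _)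
  intro x hx
  simp only [mem_filter, mem_union, Set.mem_union] at hx ⊢
  tauto

lemma cnt_preimage (g : Perm ℤ) (D : ℕ) (hD : ∀ x, |g x - x| ≤ D) (A : Set ℤ) (L : ℕ) :
    cnt {x | g x ∈ A} L ≤ cnt A (L + D) := by
  classical
  unfold cnt
  apply card_le_card_of_injOn g
  · intro x hx
    simp only [coe_filter, mem_Icc, Set.mem_ofPred_eq] at hx ⊢
    have h1 := hD x
    rw [abs_le] at h1
    push_cast
    refine ⟨⟨?_, ?_⟩, hx.2⟩ <;> omega
  · exact g.injective.injOn

lemma Sparse.mono {δ : ℝ} {A B : Set ℤ} (h : A ⊆ B) (hB : Sparse δ B) : Sparse δ A := by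
  obtain ⟨C, hC⟩ := hB
  exact ⟨C, fun L => le_trans (by exact_mod_cast cnt_mono h L) (hC L)⟩

lemma Sparse.le {δ δ' : ℝ} {A : Set ℤ} (h : δ ≤ δ') (hA : Sparse δ A) : Sparse δ' A := by
  obtain ⟨C, hC⟩ := hA
  exact ⟨C, fun L => le_trans (hC L) (by gcongr)⟩

lemma Sparse.union {δ δ' : ℝ} {A B : Set ℤ} (hA : Sparse δ A) (hB : Sparse δ' B) :
    Sparse (δ + δ') (A ∪ B) := by
  obtain ⟨C, hC⟩ := hA
  obtain ⟨C', hC'⟩ := hB
  refine ⟨C + C', fun L => ?_⟩
  have h1 : (cnt (A ∪ B) L : ℝ) ≤ cnt A L + cnt B L := by exact_mod_cast cnt_union A B L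
  nlinarith [hC L, hC' L]

lemma sparse_empty : Sparse 0 (∅ : Set ℤ) := by
  refine ⟨0, fun L => ?_⟩
  simp [cnt]

lemma Sparse.preimage {δ : ℝ} {A : Set ℤ} (hA : Sparse δ A) (g : Perm ℤ) (D : ℕ)
    (hD : ∀ x, |g x - x| ≤ D) : Sparse δ {x | g x ∈ A} := by
  obtain ⟨C, hC⟩ := hA
  refine ⟨C + 2 * D * δ, fun L => ?_⟩
  have h1 : (cnt {x | g x ∈ A} L : ℝ) ≤ cnt A (L + D) := by
    exact_mod_cast cnt_preimage g D hD A L
  have h2 := hC (L + D)
  push_cast at h2
  nlinarith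

lemma sparse_class (k : ℤ) (hk : 0 < k) (i : ℤ) : Sparse (1 / (k : ℝ)) {x | x % k = i} := by
  classical
  refine ⟨2, fun L => ?_⟩
  have h1 : cnt {x | x % k = i} L ≤
      ((Ico (-(L : ℤ)) (L + 1)).filter (fun x => x ≡ i [ZMOD k])).card := by
    unfold cnt
    apply card_le_card
    intro x hx
    simp only [mem_filter, mem_Icc, mem_Ico, Set.mem_ofPred_eq] at hx ⊢
    refine ⟨⟨hx.1.1, by omega⟩, ?_⟩
    unfold Int.ModEq
    rw [← hx.2, Int.emod_emod_of_dvd _ (dvd_refl k)]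
  have h2 := Int.Ico_filter_modEq_card (-(L : ℤ)) (L + 1) hk i
  have h3 : ((((Ico (-(L : ℤ)) (L + 1)).filter (fun x => x ≡ i [ZMOD k])).card : ℤ) : ℝ) ≤
      1 / (k : ℝ) * (2 * L + 1) + 2 := by
    rw [h2]
    have hk' : (0 : ℝ) < k := by exact_mod_cast hk
    have h4 : (0 : ℝ) ≤ 1 / (k : ℝ) * (2 * L + 1) + 2 := by positivity
    rw [Int.cast_max]
    apply max_le _ (by simpa using h4)
    have e1 : ((⌈(((L + 1 : ℤ) : ℚ) - i) / (k : ℚ)⌉ : ℤ) : ℚ) < (((L + 1 : ℤ) : ℚ) - i) / (k : ℚ) + 1 :=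
      Int.ceil_lt_add_one _
    have e2 : (((-(L : ℤ) : ℤ) : ℚ) - i) / (k : ℚ) ≤ ((⌈(((-(L : ℤ) : ℤ) : ℚ) - i) / (k : ℚ)⌉ : ℤ) : ℚ) :=
      Int.le_ceil _
    have e3 : ((⌈(((L + 1 : ℤ) : ℚ) - i) / (k : ℚ)⌉ - ⌈(((-(L : ℤ) : ℤ) : ℚ) - i) / (k : ℚ)⌉ : ℤ) : ℚ)
        ≤ 1 / (k : ℚ) * (2 * L + 1) + 1 := by
      push_cast at e1 e2 ⊢
      have : (((L : ℚ) + 1) - i) / (k : ℚ) + 1 - ((-(L : ℚ)) - i) / (k : ℚ) =
          1 / (k : ℚ) * (2 * L + 1) + 1 := by
        ring
      linarith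
    have e4 : (((⌈(((L + 1 : ℤ) : ℚ) - i) / (k : ℚ)⌉ - ⌈(((-(L : ℤ) : ℤ) : ℚ) - i) / (k : ℚ)⌉ : ℤ) : ℚ) : ℝ)
        ≤ ((1 / (k : ℚ) * (2 * L + 1) + 1 : ℚ) : ℝ) := by exact_mod_cast e3
    rw [Rat.cast_intCast] at e4
    refine le_trans e4 ?_
    push_cast
    linarith
  refine le_trans ?_ h3
  exact_mod_cast h1

/-- The set of candidates with modulus at most `K`. -/
noncomputable def ctp (k i j : ℕ) : Perm ℤ := by
  classical exact if h : ∃ τ, IsCT k i j τ then h.choose else 1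

lemma IsCT.unique {k i j : ℤ} {σ τ : Perm ℤ} (h1 : IsCT k i j σ) (h2 : IsCT k i j τ) : σ = τ := by
  ext x
  rw [h1 x, h2 x]

lemma ctp_eq {k i j : ℕ} {τ : Perm ℤ} (h : IsCT k i j τ) : ctp k i j = τ := by
  unfold ctp
  rw [dif_pos ⟨τ, h⟩]
  exact IsCT.unique (Exists.choose_spec (⟨τ, h⟩ : ∃ τ : Perm ℤ, IsCT k i j τ)) h

/-- The set of candidates with modulus at most `K`. -/
noncomputable def S (K : ℕ) : Finset (Perm ℤ) := by
  classical exact (range K ×ˢ range K ×ˢ range K).image (fun p => ctp (p.1 + 1) p.2.1 p.2.2)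

lemma card_S (K : ℕ) : (S K).card ≤ K ^ 3 := by
  classical
  unfold S
  refine le_trans card_image_le ?_
  simp [card_product]
  ring_nf
  exact le_rfl

lemma one_mem_S (K : ℕ) (hK : 1 ≤ K) : (1 : Perm ℤ) ∈ S K := by
  classical
  unfold S
  rw [mem_image]
  refine ⟨(0, 0, 0), by simp; omega, ?_⟩
  apply ctp_eq
  intro n
  simp

lemma mem_S {K : ℕ} {k i j : ℤ} (hk : k ≤ K) (hi : 0 ≤ i) (hij : i < j) (hj : j < k) {τ : Perm ℤ}
    (h : IsCT k i j τ) : τ ∈ S K := by
  classical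
  lift i to ℕ using hi
  lift j to ℕ using (by omega)
  lift k to ℕ using (by omega)
  unfold S
  rw [mem_image]
  refine ⟨(k - 1, i, j), ?_, ?_⟩
  · simp only [mem_product, mem_range]
    omega
  · apply ctp_eq
    have : k - 1 + 1 = k := by omega
    simp only [this]
    exact h

lemma IsCT.moved {k i j : ℤ} {τ : Perm ℤ} (h : IsCT k i j τ) :
    {x | τ x ≠ x} ⊆ {x | x % k = i} ∪ {x | x % k = j} := by
  intro x hx
  simp only [Set.mem_ofPred_eq, ne_eq, Set.mem_union] at hx ⊢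
  by_contra hcon
  push Not at hcon
  apply hx
  rw [h x, if_neg hcon.1, if_neg hcon.2]

lemma approx (K : ℕ) (hK : 1 ≤ K) : ∀ l : List (Perm ℤ), (∀ τ ∈ l, τ ∈ H) →
    ∃ h ∈ (S K) ^ l.length, Sparse (2 * l.length / K) {x | l.prod x ≠ h x} ∧
      ∃ D : ℕ, ∀ x, |l.prod x - x| ≤ D := by
  classical
  intro l
  induction l with
  | nil =>
    intro _
    refine ⟨1, by simp, ?_, 0, by simp⟩
    have : {x | ([] : List (Perm ℤ)).prod x ≠ (1 : Perm ℤ) x} = ∅ := by
      ext x; simp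
    rw [this]
    simpa using sparse_empty
  | cons τ l ih =>
    intro hl
    obtain ⟨h, hh, hsp, D, hD⟩ := ih (fun t ht => hl t (List.mem_cons_of_mem _ ht))
    obtain ⟨k, i, j, hk2, hi, hij, hj, hct⟩ := hl τ (List.mem_cons_self)
    have hKpos : (0 : ℝ) < K := by exact_mod_cast hK
    have hdisp : ∀ x, |τ x - x| ≤ k.toNat := by
      intro x
      rw [hct x, abs_le]
      split_ifs <;> constructor <;> omega
    have hD' : ∃ D : ℕ, ∀ x, |(τ :: l).prod x - x| ≤ D := by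
      refine ⟨k.toNat + D, fun x => ?_⟩
      rw [List.prod_cons, Perm.mul_apply]
      have h1 := hdisp (l.prod x)
      have h2 := hD x
      rw [abs_le] at h1 h2 ⊢
      push_cast
      constructor <;> omega
    by_cases hkK : k ≤ K
    · refine ⟨τ * h, ?_, ?_, hD'⟩
      · rw [List.length_cons, pow_succ']
        exact mul_mem_mul (mem_S hkK hi hij hj hct) hh
      · have : {x | (τ :: l).prod x ≠ (τ * h) x} = {x | l.prod x ≠ h x} := by
          ext x
          simp [List.prod_cons]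
        rw [this]
        refine hsp.le ?_
        rw [List.length_cons]
        push_cast
        gcongr
        linarith
    · refine ⟨1 * h, ?_, ?_, hD'⟩
      · rw [List.length_cons, pow_succ']
        exact mul_mem_mul (one_mem_S K hK) hh
      · have hkpos : (0 : ℤ) < k := by omega
        have hkpos' : (0 : ℝ) < k := by exact_mod_cast hkpos
        have s1 : Sparse (1 / (k : ℝ) + 1 / k) {x | τ x ≠ x} :=
          Sparse.mono hct.moved ((sparse_class k hkpos i).union (sparse_class k hkpos j))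
        have s2 := s1.preimage l.prod D hD
        have s3 := hsp.union s2
        refine Sparse.le ?_ (Sparse.mono ?_ s3)
        · rw [List.length_cons]
          push_cast
          have : 1 / (k : ℝ) ≤ 1 / K := by
            apply one_div_le_one_div_of_le hKpos
            have : (K : ℤ) ≤ k := by omega
            exact_mod_cast this
          have e : 2 * ((l.length : ℝ) + 1) / K = 2 * l.length / K + (1 / K + 1 / K) := by
            field_simp
            ring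
          rw [e]
          linarith
        · intro x hx
          simp only [List.prod_cons, Perm.mul_apply, one_mul, Set.mem_ofPred_eq, ne_eq,
            Set.mem_union] at hx ⊢
          by_contra hcon
          push Not at hcon
          apply hx
          rw [hcon.2, hcon.1]

lemma approx' (K : ℕ) (hK : 1 ≤ K) (n : ℕ) (g : Perm ℤ) (hg : IsProd n g) :
    ∃ h ∈ (S K) ^ n, Sparse (2 * n / K) {x | g x ≠ h x} := by
  obtain ⟨l, hl, hH, rfl⟩ := hg
  obtain ⟨h, hh, hsp, -⟩ := approx K hK l hH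
  refine ⟨h, ?_, hsp.le ?_⟩
  · exact pow_subset_pow_right (one_mem_S K hK) hl hh
  · have hKpos : (0 : ℝ) < K := by exact_mod_cast hK
    gcongr

end KS6_22_CT
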