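import Pool.Agent.KS6_22.CT.Basic

open Equiv Finset Filter Topology
open scoped Pointwise Nat

namespace KS6_22_CT

lemma sparse_periodic {δ : ℝ} (N : ℕ) [NeZero N] (A : Set ℤ) (B : Finset (Fin N))
    (hB : ∀ r ∈ B, ∀ m : ℤ, (m * N + ((r : ℕ) : ℤ) : ℤ) ∈ A) (h : Sparse δ A) :
    (B.card : ℝ) ≤ δ * N := by
  classical
  obtain ⟨C, hC⟩ := h
  have hN : (0 : ℤ) < N := by exact_mod_cast Nat.pos_of_ne_zero (NeZero.ne N)
  have key : ∀ M : ℕ, B.card * (2 * M) ≤ cnt A (N * M) := by
    intro M
    have e1 : (B ×ˢ Ico (-(M : ℤ)) M).card = B.card * (2 * M) := by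
      rw [card_product, Int.card_Ico]
      congr 1
      omega
    rw [← e1]
    unfold cnt
    apply card_le_card_of_injOn (fun p => p.2 * N + ((p.1 : ℕ) : ℤ))
    · intro p hp
      simp only [coe_product, coe_Ico, Set.mem_prod, mem_coe, Set.mem_Ico] at hp
      simp only [coe_filter, mem_Icc, Set.mem_ofPred_eq]
      have hr := p.1.2
      have h1 : ((p.1 : ℕ) : ℤ) < N := by exact_mod_cast hr
      have h0 : (0 : ℤ) ≤ ((p.1 : ℕ) : ℤ) := by positivity
      refine ⟨⟨?_, ?_⟩, hB _ hp.1 _⟩
      · push_cast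
        nlinarith [hp.2.1]
      · push_cast
        nlinarith [hp.2.2]
    · rintro ⟨r, m⟩ - ⟨r', m'⟩ - hpp
      simp only at hpp
      have hr : ((r : ℕ) : ℤ) < N := by exact_mod_cast r.2
      have hr' : ((r' : ℕ) : ℤ) < N := by exact_mod_cast r'.2
      have h0 : (0 : ℤ) ≤ ((r : ℕ) : ℤ) := by positivity
      have h0' : (0 : ℤ) ≤ ((r' : ℕ) : ℤ) := by positivity
      have hm : m = m' := by
        have e : (m - m') * N = ((r' : ℕ) : ℤ) - ((r : ℕ) : ℤ) := by linarith
        have h5 : (m - m') * N < 1 * N := by rw [e]; linarith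
        have h6 : (-1) * (N : ℤ) < (m - m') * N := by rw [e]; linarith
        have h7 := lt_of_mul_lt_mul_right h5 hN.le
        have h8 := lt_of_mul_lt_mul_right h6 hN.le
        omega
      subst hm
      have : ((r : ℕ) : ℤ) = ((r' : ℕ) : ℤ) := by linarith
      have : r = r' := Fin.ext (by exact_mod_cast this)
      rw [this]
  by_contra hcon
  push Not at hcon
  obtain ⟨M, hM⟩ := exists_nat_gt ((δ + C) / (2 * ((B.card : ℝ) - δ * N)))
  have hpos : 0 < 2 * ((B.card : ℝ) - δ * N) := by linarith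
  rw [div_lt_iff₀ hpos] at hM
  have h1 := hC (N * M)
  have h2 : ((B.card : ℝ)) * (2 * M) ≤ cnt A (N * M) := by exact_mod_cast key M
  push_cast at h1
  nlinarith

/-- The permutation of `ℤ` that acts on the residues mod `N` as `σ`. -/
noncomputable def lift (N : ℕ) [NeZero N] : Perm (Fin N) →* Perm ℤ where
  toFun σ := ((Int.divModEquiv N).trans (Equiv.prodCongr (Equiv.refl ℤ) σ)).trans
    (Int.divModEquiv N).symm
  map_one' := by
    ext x
    simp only [Equiv.trans_apply, Equiv.prodCongr_apply, Equiv.coe_refl, Perm.coe_one]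
    simp
    exact (Int.divModEquiv N).symm_apply_apply x
  map_mul' σ τ := by
    ext x
    change (Int.divModEquiv N).symm ((Equiv.prodCongr (Equiv.refl ℤ) (σ * τ))
      ((Int.divModEquiv N) x)) = (Int.divModEquiv N).symm ((Equiv.prodCongr (Equiv.refl ℤ) σ)
      ((Int.divModEquiv N) ((Int.divModEquiv N).symm ((Equiv.prodCongr (Equiv.refl ℤ) τ)
      ((Int.divModEquiv N) x)))))
    rw [Equiv.apply_symm_apply]
    rfl

lemma lift_apply (N : ℕ) [NeZero N] (σ : Perm (Fin N)) (m : ℤ) (r : Fin N) :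
    lift N σ (m * N + ((r : ℕ) : ℤ)) = m * N + ((σ r : ℕ) : ℤ) := by
  have : (m * N + ((r : ℕ) : ℤ)) = (Int.divModEquiv N).symm (m, r) := rfl
  rw [this]
  change (Int.divModEquiv N).symm ((Equiv.prodCongr (Equiv.refl ℤ) σ)
    ((Int.divModEquiv N) ((Int.divModEquiv N).symm (m, r)))) = _
  rw [Equiv.apply_symm_apply]
  rfl

lemma exists_rep (N : ℕ) [NeZero N] (x : ℤ) : ∃ (m : ℤ) (r : Fin N), x = m * N + ((r : ℕ) : ℤ) := by
  refine ⟨((Int.divModEquiv N) x).1, ((Int.divModEquiv N) x).2, ?_⟩
  exact ((Int.divModEquiv N).symm_apply_apply x).symm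

lemma rep_mod (N : ℕ) [NeZero N] (m : ℤ) (r : Fin N) : (m * N + ((r : ℕ) : ℤ)) % N = ((r : ℕ) : ℤ) := by
  rw [add_comm, Int.add_mul_emod_self_right]
  exact Int.emod_eq_of_lt (by positivity) (by exact_mod_cast r.2)

lemma lift_injective (N : ℕ) [NeZero N] : Function.Injective (lift N) := by
  intro σ τ h
  ext r
  have h1 := lift_apply N σ 0 r
  have h2 := lift_apply N τ 0 r
  rw [h, h2] at h1
  have : ((τ r : ℕ) : ℤ) = ((σ r : ℕ) : ℤ) := by linarith
  exact_mod_cast this.symm

lemma ball (N ρ : ℕ) (hρ : ρ ≤ N) (τ : Perm (Fin N)) :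
    (univ.filter (fun σ : Perm (Fin N) => (univ.filter (fun i => σ i ≠ τ i)).card ≤ ρ)).card ≤
      N.choose ρ * ρ ! := by
  classical
  have hsub : univ.filter (fun σ : Perm (Fin N) => (univ.filter (fun i => σ i ≠ τ i)).card ≤ ρ) ⊆
      (powersetCard ρ (univ : Finset (Fin N))).biUnion
        (fun A => univ.filter (fun σ : Perm (Fin N) => ∀ i, i ∉ A → σ i = τ i)) := by
    intro σ hσ
    simp only [mem_filter, mem_univ, true_and] at hσ
    obtain ⟨A, hA1, -, hA3⟩ := exists_subsuperset_card_eq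
      (subset_univ (univ.filter (fun i => σ i ≠ τ i))) hσ (by simpa using hρ)
    rw [mem_biUnion]
    refine ⟨A, by simp [mem_powersetCard, hA3], ?_⟩
    simp only [mem_filter, mem_univ, true_and]
    intro i hi
    by_contra hcon
    exact hi (hA1 (by simpa using hcon))
  refine le_trans (card_le_card hsub) ?_
  have : N.choose ρ = (powersetCard ρ (univ : Finset (Fin N))).card := by simp
  rw [this]
  refine le_trans (card_biUnion_le_card_mul _ _ (ρ !) ?_) le_rfl
  intro A hA
  rw [mem_powersetCard] at hA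
  have e : (univ.filter (fun σ : Perm (Fin N) => ∀ i, i ∉ A → σ i = τ i)).card ≤
      Fintype.card { f : Perm (Fin N) // ∀ a, ¬ (a ∈ A) → f a = a } := by
    rw [Fintype.card_subtype]
    apply card_le_card_of_injOn (fun σ => τ⁻¹ * σ)
    · intro σ hσ
      simp only [coe_filter, mem_univ, true_and, Set.mem_ofPred_eq] at hσ ⊢
      intro a ha
      rw [Perm.mul_apply, hσ a ha]
      simp
    · intro σ _ σ' _ h
      exact mul_left_cancel h
  refine le_trans e ?_
  rw [← Fintype.card_congr (Perm.subtypeEquivSubtypePerm (fun a => a ∈ A)), Fintype.card_perm]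
  simp [hA.2]

lemma count (N n K ρ : ℕ) [NeZero N] (hK : 1 ≤ K) (hρ : ρ ≤ N) (hc : 4 * n * N < (ρ + 1) * K) :
    {σ : Perm (Fin N) | IsProd n (lift N σ)}.ncard ≤ (N.choose ρ * ρ !) * (K ^ 3) ^ n := by
  classical
  have e : {σ : Perm (Fin N) | IsProd n (lift N σ)} =
      ((univ.filter (fun σ : Perm (Fin N) => IsProd n (lift N σ)) : Finset _) : Set _) := by
    ext; simp
  rw [e, Set.ncard_coe_finset]
  have h1 : ∀ σ : Perm (Fin N), ∃ h, IsProd n (lift N σ) →
      h ∈ (S K) ^ n ∧ Sparse (2 * n / K) {x | lift N σ x ≠ h x} := by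
    intro σ
    by_cases hp : IsProd n (lift N σ)
    · obtain ⟨h, hh⟩ := approx' K hK n _ hp
      exact ⟨h, fun _ => hh⟩
    · exact ⟨1, fun h => absurd h hp⟩
  choose f hf using h1
  have h2 := card_le_mul_card_image_of_maps_to (f := f)
    (s := univ.filter (fun σ : Perm (Fin N) => IsProd n (lift N σ))) (t := (S K) ^ n)
    (fun σ hσ => (hf σ (by simpa using hσ)).1) (N.choose ρ * ρ !) ?_
  · refine le_trans h2 ?_
    gcongr
    refine le_trans card_pow_le ?_
    gcongr
    exact card_S K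
  · intro h _
    by_cases hne : (filter (fun a => f a = h)
        (univ.filter (fun σ : Perm (Fin N) => IsProd n (lift N σ)))).Nonempty
    · obtain ⟨τ, hτ⟩ := hne
      simp only [mem_filter, mem_univ, true_and] at hτ
      refine le_trans (card_le_card ?_) (ball N ρ hρ τ)
      intro σ hσ
      simp only [mem_filter, mem_univ, true_and] at hσ ⊢
      have s1 := (hf σ hσ.1).2
      have s2 := (hf τ hτ.1).2
      rw [hσ.2] at s1
      rw [hτ.2] at s2
      have s3 := s1.union s2
      have s4 := sparse_periodic N _ (univ.filter (fun i => σ i ≠ τ i)) ?_ s3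
      · by_contra hcon
        push Not at hcon
        have hKpos : (0 : ℝ) < K := by exact_mod_cast hK
        have h6 : ((ρ : ℝ) + 1) ≤ ((univ.filter (fun i => σ i ≠ τ i)).card : ℝ) := by
          exact_mod_cast hcon
        have h7 : ((ρ : ℝ) + 1) ≤ (2 * n / K + 2 * n / K) * N := h6.trans s4
        have h8 : (2 * (n : ℝ) / K + 2 * n / K) * N = 4 * n * N / K := by ring
        rw [h8, le_div_iff₀ hKpos] at h7
        have h9 : (4 * (n : ℝ) * N) < (ρ + 1) * K := by exact_mod_cast hc
        linarith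
      · intro r hr m
        simp only [mem_filter, mem_univ, true_and] at hr
        simp only [Set.mem_union, Set.mem_ofPred_eq]
        by_contra hcon
        push Not at hcon
        apply hr
        have h9 : lift N σ (m * N + ((r : ℕ) : ℤ)) = lift N τ (m * N + ((r : ℕ) : ℤ)) := by
          rw [hcon.1, hcon.2]
        rw [lift_apply, lift_apply] at h9
        have h10 : ((σ r : ℕ) : ℤ) = ((τ r : ℕ) : ℤ) := by linarith
        exact Fin.ext (by exact_mod_cast h10)
    · rw [not_nonempty_iff_eq_empty] at hne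
      rw [hne]
      simp

end KS6_22_CT
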